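import Pool.Agent.H457Z.Fair.Check

set_option autoImplicit false
set_option maxRecDepth 100000

namespace Pool.Agent.H457Z.Fair

def d0 : Cert :=
  (.b 4 (.b 7 (.b 11 .m (.b 10 .m (.g 4 7 10 11 false false true true) (.g 4 7 10 11 false false
  true true)) (.b 10 .m (.g 4 7 10 11 false false true true) (.g 4 7 10 11 false false true
  true))) (.b 2 .m (.b 11 (.g 2 4 7 11 true false true false) .m (.g 2 4 7 11 true false true
  false)) (.b 11 (.g 2 4 7 11 true false true false) .m (.g 2 4 7 11 true false true false))) (.b
  2 (.b 1 (.g 2 1 4 7 false false false true) (.b 3 (.b 6 (.g 1 3 6 7 true false false true) .m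
  (.g 1 3 6 7 true false false true)) .m (.b 6 (.g 1 3 6 7 true false false true) .m (.g 1 3 6 7
  true false false true))) (.g 2 1 4 7 false false false true)) (.b 3 (.b 6 (.g 4 2 6 7 false true
  false true) .m (.g 4 2 6 7 false true false true)) (.g 3 2 4 7 true true false false) (.g 3 2 4
  7 true true false false)) (.b 3 (.b 1 (.g 2 1 3 7 false false false true) (.b 6 (.g 1 2 3 6 true
  true false false) .m (.g 1 2 3 6 true true false false)) (.g 2 1 3 7 false false false true))
  (.g 3 2 4 7 true true false false) (.g 3 2 4 7 true true false false)))) (.b 7 (.b 2 (.b 11 .m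
  (.g 4 2 7 11 true false false true) (.g 4 2 7 11 true false false true)) .m (.b 11 .m (.g 4 2 7
  11 true false false true) (.g 4 2 7 11 true false false true))) (.b 11 (.b 10 (.g 7 4 10 11 true
  true false false) .m (.g 7 4 10 11 true true false false)) .m (.b 10 (.g 7 4 10 11 true true
  false false) .m (.g 7 4 10 11 true true false false))) (.b 2 (.b 3 (.g 2 3 4 7 false false true
  true) (.b 6 .m (.g 2 4 6 7 false true true false) (.g 2 4 6 7 false true true false)) (.g 2 3 4
  7 false false true true)) (.b 1 (.b 3 .m (.b 6 .m (.g 3 1 6 7 true false true false) (.g 3 1 6 7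
  true false true false)) (.b 6 .m (.g 3 1 6 7 true false true false) (.g 3 1 6 7 true false true
  false))) (.g 1 2 4 7 true true true false) (.g 1 2 4 7 true true true false)) (.b 3 (.g 2 3 4 7
  false false true true) (.b 1 (.b 6 .m (.g 2 1 3 6 false false true true) (.g 2 1 3 6 false false
  true true)) (.g 1 2 3 7 true true true false) (.g 1 2 3 7 true true true false)) (.g 2 3 4 7
  false false true true)))) (.b 7 (.b 11 .m (.b 10 .m (.g 4 7 10 11 false false true true) (.g 4 7
  10 11 false false true true)) (.b 10 .m (.g 4 7 10 11 false false true true) (.g 4 7 10 11 false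
  false true true))) (.b 11 (.b 10 (.g 7 4 10 11 true true false false) .m (.g 7 4 10 11 true true
  false false)) .m (.b 10 (.g 7 4 10 11 true true false false) .m (.g 7 4 10 11 true true false
  false))) (.b 2 (.b 3 (.g 2 3 4 7 false false true true) (.b 1 (.g 2 1 4 7 false false false
  true) (.b 6 .m (.g 4 1 6 7 true true true false) (.g 4 1 6 7 true true true false)) (.g 2 1 4 7
  false false false true)) (.g 2 3 4 7 false false true true)) (.b 3 (.b 1 (.b 6 (.g 1 4 6 7 false
  false false true) .m (.g 1 4 6 7 false false false true)) (.g 1 2 4 7 true true true false) (.g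
  1 2 4 7 true true true false)) (.g 3 2 4 7 true true false false) (.g 3 2 4 7 true true false
  false)) (.b 3 (.g 2 3 4 7 false false true true) (.g 3 2 4 7 true true false false) (.g 2 3 4 7
  false false true true)))))

def d1 : Cert :=
  (.b 7 (.b 8 .m (.b 10 .m .m (.b 2 (.g 7 2 8 10 false false true true) (.b 6 (.g 2 6 7 8 true
  false false true) .m (.g 2 6 7 8 true false false true)) (.g 7 2 8 10 false false true true)))
  (.b 10 .m (.b 2 (.g 7 2 8 10 false false true true) (.b 6 (.g 2 6 7 8 true false false true) .m
  (.g 2 6 7 8 true false false true)) (.g 7 2 8 10 false false true true)) (.b 2 (.g 7 2 8 10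
  false false true true) (.b 6 (.g 2 6 7 8 true false false true) .m (.g 2 6 7 8 true false false
  true)) (.g 7 2 8 10 false false true true)))) (.b 8 (.b 10 .m .m (.b 2 (.b 6 .m (.g 6 2 7 8 true
  false true false) (.g 6 2 7 8 true false true false)) (.g 2 7 8 10 true true false false) (.g 2
  7 8 10 true true false false))) .m (.b 10 (.b 2 (.b 6 .m (.g 6 2 7 8 true false true false) (.g
  6 2 7 8 true false true false)) (.g 2 7 8 10 true true false false) (.g 2 7 8 10 true true false
  false)) .m (.b 2 (.b 6 .m (.g 6 2 7 8 true false true false) (.g 6 2 7 8 true false true false))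
  (.g 2 7 8 10 true true false false) (.g 2 7 8 10 true true false false)))) (.b 2 (.b 6 (.b 3 (.g
  3 2 6 7 false false false true) (.b 4 (.b 1 (.g 2 1 4 7 false false false true) .m (.g 2 1 4 7
  false false false true)) .m (.b 1 (.g 2 1 4 7 false false false true) .m (.g 2 1 4 7 false false
  false true))) (.g 3 2 6 7 false false false true)) (.b 8 (.g 6 2 7 8 true false true false) (.b
  10 (.b 4 (.b 1 (.g 2 1 4 7 false false false true) .m (.g 2 1 4 7 false false false true)) (.g 2
  4 6 7 false true true false) (.g 2 4 6 7 false true true false)) (.g 2 6 7 10 false true false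
  true) (.g 2 6 7 10 false true false true)) (.g 6 2 7 8 true false true false)) (.b 8 (.g 6 2 7 8
  true false true false) (.b 10 (.b 4 (.b 3 (.g 3 2 6 7 false false false true) (.b 1 (.g 2 1 3 6
  false false true true) .m (.g 2 1 3 6 false false true true)) (.g 3 2 6 7 false false false
  true)) (.g 2 4 6 7 false true true false) (.g 2 4 6 7 false true true false)) (.g 2 6 7 10 false
  true false true) (.g 2 6 7 10 false true false true)) (.g 6 2 7 8 true false true false))) (.b 6
  (.b 8 (.b 10 (.g 6 2 7 10 false true true false) (.b 4 (.g 4 2 6 7 false true false true) (.b 1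
  .m (.g 1 2 4 7 true true true false) (.g 1 2 4 7 true true true false)) (.g 4 2 6 7 false true
  false true)) (.g 6 2 7 10 false true true false)) (.g 2 6 7 8 true false false true) (.g 2 6 7 8
  true false false true)) (.b 3 (.b 4 .m (.b 1 .m (.g 1 2 4 7 true true true false) (.g 1 2 4 7
  true true true false)) (.b 1 .m (.g 1 2 4 7 true true true false) (.g 1 2 4 7 true true true
  false))) (.g 2 3 6 7 true true true false) (.g 2 3 6 7 true true true false)) (.b 8 (.b 10 (.g 6
  2 7 10 false true true false) (.b 4 (.g 4 2 6 7 false true false true) (.b 3 (.b 1 .m (.g 1 2 3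
  6 true true false false) (.g 1 2 3 6 true true false false)) (.g 2 3 6 7 true true true false)
  (.g 2 3 6 7 true true true false)) (.g 4 2 6 7 false true false true)) (.g 6 2 7 10 false true
  true false)) (.g 2 6 7 8 true false false true) (.g 2 6 7 8 true false false true))) (.b 6 (.b 8
  (.b 10 (.g 6 2 7 10 false true true false) (.b 4 (.g 4 2 6 7 false true false true) (.b 3 (.g 2
  3 4 7 false false true true) (.b 1 .m (.g 1 2 3 7 true true true false) (.g 1 2 3 7 true true
  true false)) (.g 2 3 4 7 false false true true)) (.g 4 2 6 7 false true false true)) (.g 6 2 7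
  10 false true true false)) (.g 2 6 7 8 true false false true) (.g 2 6 7 8 true false false
  true)) (.b 8 (.g 6 2 7 8 true false true false) (.b 10 (.b 4 (.b 3 (.b 1 (.g 2 1 3 7 false false
  false true) .m (.g 2 1 3 7 false false false true)) (.g 3 2 4 7 true true false false) (.g 3 2 4
  7 true true false false)) (.g 2 4 6 7 false true true false) (.g 2 4 6 7 false true true false))
  (.g 2 6 7 10 false true false true) (.g 2 6 7 10 false true false true)) (.g 6 2 7 8 true false
  true false)) (.b 8 (.g 6 2 7 8 true false true false) (.g 2 6 7 8 true false false true) (.g 2 6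
  7 8 true false false true)))))

def e0 : Cert :=
  (.b 8 (.b 11 .m (.b 9 (.g 2 0 9 11 false true false true) .m (.g 2 0 9 11 false true false
  true)) (.b 5 (.g 2 0 5 11 false true false true) (.b 9 (.g 0 2 5 9 true false true false) (.b 1
  (.b 6 .m (.g 0 6 8 11 true true false false) (.g 0 6 8 11 true true false false)) (.g 0 1 8 11
  true true false true) (.g 0 1 8 11 true true false true)) (.g 0 2 5 9 true false true false))
  (.g 2 0 5 11 false true false true))) (.b 9 (.g 0 2 8 9 true false true false) (.b 11 .m .m (.b
  5 (.g 2 0 5 11 false true false true) (.b 6 .m .m (.b 1 (.b 3 (.s 6 11 true [29, 0, 0, 0, 0, 31,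
  90, 0, 73, 37, 0, 40] d0) (.g 0 1 2 3 true false false true) (.g 0 1 2 3 true false false true))
  (.g 0 1 6 11 true true false true) (.g 0 1 6 11 true true false true))) (.g 2 0 5 11 false true
  false true))) (.g 0 2 8 9 true false true false)) (.b 9 (.g 0 2 8 9 true false true false) (.b 5
  (.b 11 (.b 1 (.g 0 1 5 8 true false false true) (.b 6 .m (.g 0 1 5 6 true true false true) (.g 0
  1 5 6 true true false true)) (.g 0 1 5 8 true false false true)) (.g 2 0 5 11 false true false
  true) (.g 2 0 5 11 false true false true)) (.b 3 (.b 6 .m .m (.b 11 (.g 0 6 8 11 true true false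
  false) (.b 1 (.s 6 8 true [29, 0, 0, 0, 0, 31, 90, 0, 35, 37, 0, 78] d1) (.g 1 0 6 8 true true
  true false) (.g 1 0 6 8 true true true false)) (.g 0 6 8 11 true true false false))) (.g 3 0 5 8
  true true true false) (.g 3 0 5 8 true true true false)) (.b 11 (.b 1 (.g 0 1 5 8 true false
  false true) (.b 6 (.b 3 .m (.g 3 0 5 8 true true true false) (.g 3 0 5 8 true true true false))
  (.g 0 1 5 6 true true false true) (.g 0 1 5 6 true true false true)) (.g 0 1 5 8 true false
  false true)) (.g 2 0 5 11 false true false true) (.g 2 0 5 11 false true false true))) (.g 0 2 8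
  9 true false true false)))

def e1 : Cert :=
  (.b 4 e0 (.g 0 2 4 7 true false true false) (.g 0 2 4 7 true false true false))

def e2 : Cert :=
  (.b 10 e1 (.g 2 0 7 10 false true false true) (.g 2 0 7 10 false true false true))

def e3 : Cert :=
  (.b 0 (.b 5 (.b 11 (.b 6 (.b 8 (.b 10 .m (.b 9 .m (.g 5 0 9 10 false false true true) (.g 5 0 9
  10 false false true true)) (.b 9 .m (.g 5 0 9 10 false false true true) (.g 5 0 9 10 false false
  true true))) .m (.b 10 (.b 4 (.b 1 (.g 0 1 2 8 false false false true) (.b 3 (.g 0 1 3 8 false
  true false true) .m (.g 0 1 3 8 false true false true)) (.g 0 1 2 8 false false false true)) (.g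
  0 4 5 10 false true false false) (.g 0 4 5 10 false true false false)) (.g 7 0 8 10 false false
  true true) (.g 7 0 8 10 false false true true))) (.g 0 2 6 7 false false true false) (.g 0 2 6 7
  false false true false)) (.g 2 0 7 11 false false false true) (.g 2 0 7 11 false false false
  true)) (.g 0 2 5 7 false false true false) (.g 0 2 5 7 false false true false)) e2 (.b 5 (.b 10
  (.b 11 (.b 4 (.b 6 (.b 8 .m .m (.b 9 (.g 0 2 8 9 true false true false) (.b 1 (.g 0 1 2 8 false
  false false true) (.b 3 (.g 0 1 3 8 false true false true) .m (.g 0 1 3 8 false true false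
  true)) (.g 0 1 2 8 false false false true)) (.g 0 2 8 9 true false true false))) (.g 2 0 5 6
  false true false true) (.g 2 0 5 6 false true false true)) (.g 0 2 4 5 true false true false)
  (.g 0 2 4 5 true false true false)) (.g 2 0 5 11 false true false true) (.g 2 0 5 11 false true
  false true)) (.g 2 0 5 10 false true false true) (.g 2 0 5 10 false true false true)) (.g 0 2 5
  7 false false true false) (.g 0 2 5 7 false false true false)))

def d2 : Cert :=
  (.b 10 (.b 11 .m (.b 9 .m .m (.b 5 (.b 6 .m (.g 6 5 9 11 true false true true) (.g 6 5 9 11 true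
  false true true)) (.g 9 5 10 11 false true false true) (.g 9 5 10 11 false true false true)))
  (.b 5 (.b 6 (.b 0 (.g 0 5 10 11 false false false true) (.b 2 (.g 2 0 5 11 false true false
  true) .m (.g 2 0 5 11 false true false true)) (.g 0 5 10 11 false false false true)) (.g 5 6 10
  11 false true false true) (.g 5 6 10 11 false true false true)) (.b 4 (.b 9 (.g 5 4 9 11 true
  false false true) (.b 6 (.b 0 (.g 4 0 6 11 false false false true) .m (.g 4 0 6 11 false false
  false true)) (.b 2 .m (.g 2 4 6 11 true false true false) (.g 2 4 6 11 true false true false))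
  (.b 0 (.g 4 0 6 11 false false false true) (.b 2 .m (.g 0 2 6 11 true true true false) (.g 0 2 6
  11 true true true false)) (.g 4 0 6 11 false false false true))) (.g 5 4 9 11 true false false
  true)) (.g 5 4 10 11 true true false false) (.g 5 4 10 11 true true false false)) (.b 6 (.b 4
  (.b 9 (.g 5 4 6 9 true false false false) (.b 0 (.g 4 0 5 11 false false false true) (.b 2 (.g 2
  0 5 11 false true false true) .m (.g 2 0 5 11 false true false true)) (.g 4 0 5 11 false false
  false true)) (.g 5 4 6 9 true false false false)) (.g 5 4 6 11 true true false false) (.g 5 4 6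
  11 true true false false)) (.g 5 6 10 11 false true false true) (.g 5 6 10 11 false true false
  true)))) (.b 11 (.b 9 .m .m (.b 5 (.g 5 9 10 11 false true true false) (.b 6 (.g 5 6 9 11 true
  false false false) .m (.g 5 6 9 11 true false false false)) (.g 5 9 10 11 false true true
  false))) .m (.b 5 (.b 4 (.g 4 5 10 11 false false true true) (.b 9 (.b 6 (.b 2 (.g 4 2 6 11 true
  false false true) .m (.g 4 2 6 11 true false false true)) (.b 0 .m (.g 0 4 6 11 true true true
  false) (.g 0 4 6 11 true true true false)) (.b 0 (.b 2 (.g 2 0 6 11 false false false true) .m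
  (.g 2 0 6 11 false false false true)) (.g 0 4 6 11 true true true false) (.g 0 4 6 11 true true
  true false))) (.g 4 5 9 11 true false true false) (.g 4 5 9 11 true false true false)) (.g 4 5
  10 11 false false true true)) (.b 6 (.g 6 5 10 11 false true true false) (.b 0 (.b 2 .m (.g 0 2
  5 11 false true true false) (.g 0 2 5 11 false true true false)) (.g 5 0 10 11 true true true
  false) (.g 5 0 10 11 true true true false)) (.g 6 5 10 11 false true true false)) (.b 6 (.g 6 5
  10 11 false true true false) (.b 4 (.g 4 5 6 11 false false true true) (.b 9 (.b 0 (.b 2 .m (.g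
  0 2 5 11 false true true false) (.g 0 2 5 11 false true true false)) (.g 0 4 5 11 true true true
  false) (.g 0 4 5 11 true true true false)) (.g 4 5 6 9 true false true true) (.g 4 5 6 9 true
  false true true)) (.g 4 5 6 11 false false true true)) (.g 6 5 10 11 false true true false))))
  (.b 5 (.b 11 (.b 9 .m (.g 5 9 10 11 false true true false) (.g 5 9 10 11 false true true false))
  (.b 6 .m (.g 5 6 10 11 false true false true) (.g 5 6 10 11 false true false true)) (.b 6 (.b 4
  (.g 4 5 10 11 false false true true) (.b 0 (.g 0 4 5 10 false true false false) .m (.g 0 4 5 10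
  false true false false)) (.g 4 5 10 11 false false true true)) (.g 5 6 10 11 false true false
  true) (.g 5 6 10 11 false true false true))) (.b 11 (.b 6 (.g 6 5 10 11 false true true false)
  .m (.g 6 5 10 11 false true true false)) (.b 9 (.g 9 5 10 11 false true false true) .m (.g 9 5
  10 11 false true false true)) (.b 6 (.g 6 5 10 11 false true true false) (.b 4 (.b 0 .m (.g 4 0
  5 10 false true true true) (.g 4 0 5 10 false true true true)) (.g 5 4 10 11 true true false
  false) (.g 5 4 10 11 true true false false)) (.g 6 5 10 11 false true true false))) (.b 11 (.b 9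
  .m (.g 5 9 10 11 false true true false) (.g 5 9 10 11 false true true false)) (.b 9 (.g 9 5 10
  11 false true false true) .m (.g 9 5 10 11 false true false true)) (.b 6 (.g 6 5 10 11 false
  true true false) (.g 5 6 10 11 false true false true) (.g 5 6 10 11 false true false true)))))

def d3 : Cert :=
  (.b 11 (.b 10 .m (.b 9 .m .m (.b 5 (.g 5 9 10 11 false true true false) (.b 6 (.g 5 6 9 11 true
  false false false) .m (.g 5 6 9 11 true false false false)) (.g 5 9 10 11 false true true
  false))) (.b 9 .m (.b 5 (.g 5 9 10 11 false true true false) (.b 6 (.g 6 5 10 11 false true true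
  false) .m (.g 6 5 10 11 false true true false)) (.g 5 9 10 11 false true true false)) (.b 5 (.g
  5 9 10 11 false true true false) (.b 6 (.g 5 6 9 10 true false false false) .m (.g 5 6 9 10 true
  false false false)) (.g 5 9 10 11 false true true false)))) (.b 10 (.b 9 .m .m (.b 5 (.b 6 .m
  (.g 6 5 9 11 true false true true) (.g 6 5 9 11 true false true true)) (.g 9 5 10 11 false true
  false true) (.g 9 5 10 11 false true false true))) .m (.b 9 (.b 5 (.b 6 .m (.g 5 6 10 11 false
  true false true) (.g 5 6 10 11 false true false true)) (.g 9 5 10 11 false true false true) (.g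
  9 5 10 11 false true false true)) .m (.b 5 (.b 6 .m (.g 6 5 9 10 true false true true) (.g 6 5 9
  10 true false true true)) (.g 9 5 10 11 false true false true) (.g 9 5 10 11 false true false
  true)))) (.b 5 (.b 10 (.b 2 (.g 2 5 10 11 false false false true) (.b 6 (.b 0 (.g 2 0 10 11 true
  false false true) .m (.g 2 0 10 11 true false false true)) (.g 5 2 6 10 false true true false)
  (.g 5 2 6 10 false true true false)) (.g 2 5 10 11 false false false true)) (.b 9 (.b 4 (.g 4 5
  10 11 false false true true) (.b 2 (.b 6 (.g 4 2 6 11 true false false true) .m (.g 4 2 6 11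
  true false false true)) (.b 6 .m (.b 0 .m (.g 0 2 6 11 true true true false) (.g 0 2 6 11 true
  true true false)) (.b 0 .m (.g 0 2 6 11 true true true false) (.g 0 2 6 11 true true true
  false))) (.b 6 (.g 4 2 6 11 true false false true) (.b 0 .m (.g 0 2 4 5 true false true false)
  (.g 0 2 4 5 true false true false)) (.g 4 2 6 11 true false false true))) (.g 4 5 10 11 false
  false true true)) (.g 5 9 10 11 false true true false) (.g 5 9 10 11 false true true false)) (.b
  2 (.g 2 5 10 11 false false false true) (.b 6 (.b 0 (.g 2 0 10 11 true false false true) .m (.g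
  2 0 10 11 true false false true)) (.g 5 2 6 10 false true true false) (.g 5 2 6 10 false true
  true false)) (.g 2 5 10 11 false false false true))) (.b 10 (.b 9 (.g 9 5 10 11 false true false
  true) (.b 4 (.b 2 (.b 6 (.b 0 (.g 2 0 6 11 false false false true) .m (.g 2 0 6 11 false false
  false true)) .m (.b 0 (.g 2 0 6 11 false false false true) .m (.g 2 0 6 11 false false false
  true))) (.b 6 .m (.g 2 4 6 11 true false true false) (.g 2 4 6 11 true false true false)) (.b 6
  (.b 0 (.g 2 0 4 5 true false false true) .m (.g 2 0 4 5 true false false true)) (.g 2 4 6 11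
  true false true false) (.g 2 4 6 11 true false true false))) (.g 5 4 10 11 true true false
  false) (.g 5 4 10 11 true true false false)) (.g 9 5 10 11 false true false true)) (.b 2 (.b 6
  (.g 2 5 6 10 false true false true) (.b 0 .m (.g 0 2 10 11 true false true false) (.g 0 2 10 11
  true false true false)) (.g 2 5 6 10 false true false true)) (.g 5 2 10 11 true true true false)
  (.g 5 2 10 11 true true true false)) (.b 2 (.b 6 (.g 2 5 6 10 false true false true) (.b 0 .m
  (.g 0 2 10 11 true false true false) (.g 0 2 10 11 true false true false)) (.g 2 5 6 10 false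
  true false true)) (.g 5 2 10 11 true true true false) (.g 5 2 10 11 true true true false))) (.b
  10 (.b 2 (.g 2 5 10 11 false false false true) (.b 6 (.b 0 (.g 0 2 5 6 false true true false)
  (.b 4 .m (.g 0 4 5 11 true true true false) (.g 0 4 5 11 true true true false)) (.g 0 2 5 6
  false true true false)) (.g 5 2 6 10 false true true false) (.g 5 2 6 10 false true true false))
  (.g 2 5 10 11 false false false true)) (.b 2 (.b 6 (.g 2 5 6 10 false true false true) (.b 0 (.b
  4 (.g 4 0 5 11 false false false true) .m (.g 4 0 5 11 false false false true)) (.g 2 0 5 6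
  false true false true) (.g 2 0 5 6 false true false true)) (.g 2 5 6 10 false true false true))
  (.g 5 2 10 11 true true true false) (.g 5 2 10 11 true true true false)) (.b 2 (.g 2 5 10 11
  false false false true) (.g 5 2 10 11 true true true false) (.g 2 5 10 11 false false false
  true)))))

def e4 : Cert :=
  (.b 11 .m (.b 6 (.b 5 .m (.b 4 .m .m (.b 9 (.g 0 4 5 9 true false true false) .m (.g 0 4 5 9
  true false true false))) (.b 10 (.b 9 (.g 0 5 9 10 true true false false) .m (.g 0 5 9 10 true
  true false false)) .m (.b 9 (.g 0 5 9 10 true true false false) .m (.g 0 5 9 10 true true false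
  false)))) .m (.b 5 (.b 10 (.g 5 0 6 10 false true true false) (.b 9 .m (.g 0 5 6 9 true false
  true true) (.g 0 5 6 9 true false true true)) (.g 5 0 6 10 false true true false)) (.b 10 (.b 9
  (.g 0 5 9 10 true true false false) .m (.g 0 5 9 10 true true false false)) (.b 9 .m .m (.b 4
  (.g 0 4 5 9 true false true false) (.s 6 9 false [29, 0, 30, 0, 29, 31, 31, 0, 0, 32, 40, 78]
  d2) (.g 0 4 5 9 true false true false))) (.b 9 (.g 0 5 9 10 true true false false) (.b 4 (.g 4 0
  5 10 false true true true) (.s 6 10 false [29, 0, 30, 0, 29, 31, 31, 0, 0, 37, 35, 78] d3) (.g 4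
  0 5 10 false true true true)) (.g 0 5 9 10 true true false false))) (.b 10 (.g 5 0 6 10 false
  true true false) (.b 9 .m (.g 0 5 6 9 true false true true) (.g 0 5 6 9 true false true true))
  (.g 5 0 6 10 false true true false)))) (.b 6 (.b 5 .m (.b 4 .m (.g 0 4 5 11 true true true
  false) (.g 0 4 5 11 true true true false)) (.b 4 .m (.g 0 4 5 11 true true true false) (.g 0 4 5
  11 true true true false))) (.g 0 2 6 11 true true true false) (.g 0 2 6 11 true true true
  false)))

def e5 : Cert :=
  (.b 1 e4 (.g 1 0 2 8 true true true false) (.g 1 0 2 8 true true true false))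

def e6 : Cert :=
  (.b 8 e5 (.b 5 (.g 2 0 5 8 true true false true) (.b 6 (.g 2 0 6 8 true true false true) .m (.g
  2 0 6 8 true true false true)) (.g 2 0 5 8 true true false true)) (.b 5 (.g 2 0 5 8 true true
  false true) (.b 6 (.g 2 0 6 8 true true false true) .m (.g 2 0 6 8 true true false true)) (.g 2
  0 5 8 true true false true)))

def e7 : Cert :=
  (.b 3 e6 (.g 0 2 3 7 true true true false) (.g 0 2 3 7 true true true false))

def e8 : Cert :=
  (.b 0 (.b 8 (.b 9 (.b 1 (.b 11 .m (.b 10 (.g 0 1 10 11 false false false true) .m (.g 0 1 10 11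
  false false false true)) (.b 5 (.b 10 (.g 0 1 10 11 false false false true) (.b 4 (.g 0 1 4 11
  false false false true) (.b 6 .m (.g 1 0 6 11 false false true false) (.g 1 0 6 11 false false
  true false)) (.g 0 1 4 11 false false false true)) (.g 0 1 10 11 false false false true)) (.g 1
  0 5 11 false false true false) (.g 1 0 5 11 false false true false))) (.g 1 0 2 7 true false
  true false) (.g 1 0 2 7 true false true false)) (.g 2 0 7 9 true false false true) (.g 2 0 7 9
  true false false true)) (.g 2 0 7 8 true false false true) (.g 2 0 7 8 true false false true))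
  e7 (.b 8 (.b 9 (.b 1 (.b 3 (.b 11 .m (.b 10 (.g 0 1 10 11 false false false true) .m (.g 0 1 10
  11 false false false true)) (.b 5 (.b 10 (.g 0 1 10 11 false false false true) (.b 4 (.g 0 1 4
  11 false false false true) (.b 6 .m (.g 1 0 6 11 false false true false) (.g 1 0 6 11 false
  false true false)) (.g 0 1 4 11 false false false true)) (.g 0 1 10 11 false false false true))
  (.g 1 0 5 11 false false true false) (.g 1 0 5 11 false false true false))) (.g 1 0 3 7 false
  true true false) (.g 1 0 3 7 false true true false)) (.g 1 0 2 7 true false true false) (.g 1 0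
  2 7 true false true false)) (.g 2 0 7 9 true false false true) (.g 2 0 7 9 true false false
  true)) (.g 2 0 7 8 true false false true) (.g 2 0 7 8 true false false true)))

def e9 : Cert :=
  (.b 0 (.b 8 (.b 5 (.b 9 (.b 11 .m (.g 2 0 7 11 false false false true) (.g 2 0 7 11 false false
  false true)) (.g 2 0 5 9 true false false true) (.g 2 0 5 9 true false false true)) (.g 0 2 5 7
  false false true false) (.g 0 2 5 7 false false true false)) (.g 2 0 7 8 true false false true)
  (.g 2 0 7 8 true false false true)) (.b 10 (.b 4 (.b 3 (.b 8 (.b 1 (.b 11 .m (.b 9 (.g 2 0 9 11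
  false true false true) .m (.g 2 0 9 11 false true false true)) (.b 5 (.g 2 0 5 11 false true
  false true) (.b 6 .m (.g 0 2 6 11 true true true false) (.g 0 2 6 11 true true true false)) (.g
  2 0 5 11 false true false true))) (.g 1 0 2 8 true true true false) (.g 1 0 2 8 true true true
  false)) (.b 11 (.g 0 2 8 11 true true true false) .m (.g 0 2 8 11 true true true false)) (.b 5
  (.g 2 0 5 8 true true false true) (.b 6 (.g 2 0 6 8 true true false true) .m (.g 2 0 6 8 true
  true false true)) (.g 2 0 5 8 true true false true))) (.g 0 2 3 7 true true true false) (.g 0 2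
  3 7 true true true false)) (.g 0 2 4 7 true false true false) (.g 0 2 4 7 true false true
  false)) (.g 2 0 7 10 false true false true) (.g 2 0 7 10 false true false true)) (.b 8 (.b 5 (.b
  10 (.b 11 .m (.g 2 0 5 11 false true false true) (.g 2 0 5 11 false true false true)) (.g 2 0 5
  10 false true false true) (.g 2 0 5 10 false true false true)) (.g 0 2 5 7 false false true
  false) (.g 0 2 5 7 false false true false)) (.g 2 0 7 8 true false false true) (.g 2 0 7 8 true
  false false true)))

def e10 : Cert :=
  (.b 11 (.b 6 .m (.b 5 (.b 4 .m .m (.b 9 .m (.g 4 0 5 9 true false false true) (.g 4 0 5 9 true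
  false false true))) .m (.b 10 .m (.b 9 .m (.g 5 0 9 10 false false true true) (.g 5 0 9 10 false
  false true true)) (.b 9 .m (.g 5 0 9 10 false false true true) (.g 5 0 9 10 false false true
  true)))) (.b 5 (.b 10 (.b 9 .m .m (.b 4 (.s 6 9 true [0, 31, 0, 31, 0, 0, 88, 72, 73, 5, 0, 0]
  d2) (.g 4 0 5 9 true false false true) (.g 4 0 5 9 true false false true))) (.b 9 .m (.g 5 0 9
  10 false false true true) (.g 5 0 9 10 false false true true)) (.b 9 (.b 4 (.s 6 10 true [0, 31,
  0, 31, 0, 0, 88, 72, 73, 0, 5, 0] d3) (.g 0 4 5 10 false true false false) (.g 0 4 5 10 false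
  true false false)) (.g 5 0 9 10 false false true true) (.g 5 0 9 10 false false true true))) (.b
  10 (.b 9 (.g 5 0 6 9 true false false false) .m (.g 5 0 6 9 true false false false)) (.g 0 5 6
  10 false true false true) (.g 0 5 6 10 false true false true)) (.b 10 (.b 9 (.g 5 0 6 9 true
  false false false) .m (.g 5 0 6 9 true false false false)) (.g 0 5 6 10 false true false true)
  (.g 0 5 6 10 false true false true)))) .m (.b 6 (.g 2 0 6 11 false false false true) (.b 5 (.b 4
  (.g 4 0 5 11 false false false true) .m (.g 4 0 5 11 false false false true)) .m (.b 4 (.g 4 0 5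
  11 false false false true) .m (.g 4 0 5 11 false false false true))) (.g 2 0 6 11 false false
  false true)))

def e11 : Cert :=
  (.b 1 (.g 0 1 2 8 false false false true) e10 (.g 0 1 2 8 false false false true))

def e12 : Cert :=
  (.b 8 (.b 5 (.b 6 .m (.g 0 2 6 8 false false true false) (.g 0 2 6 8 false false true false))
  (.g 0 2 5 8 false false true false) (.g 0 2 5 8 false false true false)) e11 (.b 5 (.b 6 .m (.g
  0 2 6 8 false false true false) (.g 0 2 6 8 false false true false)) (.g 0 2 5 8 false false
  true false) (.g 0 2 5 8 false false true false)))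

def e13 : Cert :=
  (.b 3 (.g 2 0 3 7 false false false true) e12 (.g 2 0 3 7 false false false true))

def e14 : Cert :=
  (.b 0 e13 (.b 8 (.g 0 2 7 8 true false true false) (.b 9 (.g 0 2 7 9 true false true false) (.b
  1 (.g 0 1 2 7 true false false true) (.b 11 (.b 10 .m (.g 1 0 10 11 true true true false) (.g 1
  0 10 11 true true true false)) .m (.b 5 (.g 0 1 5 11 true true false true) (.b 10 (.b 4 (.b 6
  (.g 0 1 6 11 true true false true) .m (.g 0 1 6 11 true true false true)) (.g 1 0 4 11 true true
  true false) (.g 1 0 4 11 true true true false)) (.g 1 0 10 11 true true true false) (.g 1 0 10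
  11 true true true false)) (.g 0 1 5 11 true true false true))) (.g 0 1 2 7 true false false
  true)) (.g 0 2 7 9 true false true false)) (.g 0 2 7 8 true false true false)) (.b 8 (.g 0 2 7 8
  true false true false) (.b 9 (.g 0 2 7 9 true false true false) (.b 1 (.g 0 1 2 7 true false
  false true) (.b 3 (.g 0 1 3 7 false true false true) (.b 11 (.b 10 .m (.g 1 0 10 11 true true
  true false) (.g 1 0 10 11 true true true false)) .m (.b 5 (.g 0 1 5 11 true true false true) (.b
  10 (.b 4 (.b 6 (.g 0 1 6 11 true true false true) .m (.g 0 1 6 11 true true false true)) (.g 1 0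
  4 11 true true true false) (.g 1 0 4 11 true true true false)) (.g 1 0 10 11 true true true
  false) (.g 1 0 10 11 true true true false)) (.g 0 1 5 11 true true false true))) (.g 0 1 3 7
  false true false true)) (.g 0 1 2 7 true false false true)) (.g 0 2 7 9 true false true false))
  (.g 0 2 7 8 true false true false)))

def e15 : Cert :=
  (.b 8 (.b 9 (.b 11 .m .m (.b 5 (.b 6 .m .m (.b 1 (.g 1 0 6 11 false false true false) (.b 3 (.g
  1 0 2 3 true false true false) (.s 6 11 false [0, 31, 30, 31, 29, 0, 29, 72, 0, 0, 40, 38] d0)
  (.g 1 0 2 3 true false true false)) (.g 1 0 6 11 false false true false))) (.g 0 2 5 11 false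
  true true false) (.g 0 2 5 11 false true true false))) (.g 2 0 8 9 true false false true) (.g 2
  0 8 9 true false false true)) (.b 11 (.b 9 .m (.g 0 2 9 11 false true true false) (.g 0 2 9 11
  false true true false)) .m (.b 5 (.b 9 (.b 1 (.g 1 0 8 11 false false true false) (.b 6 (.g 6 0
  8 11 false false true true) .m (.g 6 0 8 11 false false true true)) (.g 1 0 8 11 false false
  true false)) (.g 2 0 5 9 true false false true) (.g 2 0 5 9 true false false true)) (.g 0 2 5 11
  false true true false) (.g 0 2 5 11 false true true false))) (.b 9 (.b 5 (.b 3 (.g 0 3 5 8 false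
  false false true) (.b 6 .m .m (.b 11 (.b 1 (.g 0 1 6 8 false false false true) (.s 6 8 false [0,
  31, 30, 31, 29, 0, 29, 72, 38, 0, 40, 0] d1) (.g 0 1 6 8 false false false true)) (.g 6 0 8 11
  false false true true) (.g 6 0 8 11 false false true true))) (.g 0 3 5 8 false false false
  true)) (.b 11 (.g 0 2 5 11 false true true false) (.b 1 (.b 6 (.g 1 0 5 6 false false true
  false) .m (.g 1 0 5 6 false false true false)) (.g 1 0 5 8 true false true false) (.g 1 0 5 8
  true false true false)) (.g 0 2 5 11 false true true false)) (.b 11 (.g 0 2 5 11 false true true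
  false) (.b 1 (.b 6 (.g 1 0 5 6 false false true false) (.b 3 (.g 0 3 5 8 false false false true)
  .m (.g 0 3 5 8 false false false true)) (.g 1 0 5 6 false false true false)) (.g 1 0 5 8 true
  false true false) (.g 1 0 5 8 true false true false)) (.g 0 2 5 11 false true true false))) (.g
  2 0 8 9 true false false true) (.g 2 0 8 9 true false false true)))

def e16 : Cert :=
  (.b 4 (.g 2 0 4 7 true false false true) e15 (.g 2 0 4 7 true false false true))

def e17 : Cert :=
  (.b 10 (.g 0 2 7 10 false true true false) e16 (.g 0 2 7 10 false true true false))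

def e18 : Cert :=
  (.b 0 e17 (.b 5 (.g 2 0 5 7 true true false true) (.b 11 (.g 0 2 7 11 true true true false) (.b
  6 (.g 2 0 6 7 true true false true) (.b 8 .m (.b 10 (.b 9 (.g 0 5 9 10 true true false false) .m
  (.g 0 5 9 10 true true false false)) .m (.b 9 (.g 0 5 9 10 true true false false) .m (.g 0 5 9
  10 true true false false))) (.b 10 (.g 0 7 8 10 true true false false) (.b 4 (.g 4 0 5 10 false
  true true true) (.b 1 (.b 3 .m (.g 1 0 3 8 false true true false) (.g 1 0 3 8 false true true
  false)) (.g 1 0 2 8 true true true false) (.g 1 0 2 8 true true true false)) (.g 4 0 5 10 false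
  true true true)) (.g 0 7 8 10 true true false false))) (.g 2 0 6 7 true true false true)) (.g 0
  2 7 11 true true true false)) (.g 2 0 5 7 true true false true)) (.b 5 (.g 2 0 5 7 true true
  false true) (.b 10 (.g 0 2 5 10 false true true false) (.b 11 (.g 0 2 5 11 false true true
  false) (.b 4 (.g 2 0 4 5 true false false true) (.b 6 (.g 0 2 5 6 false true true false) (.b 8
  .m .m (.b 9 (.b 1 (.b 3 .m (.g 1 0 3 8 false true true false) (.g 1 0 3 8 false true true
  false)) (.g 1 0 2 8 true true true false) (.g 1 0 2 8 true true true false)) (.g 2 0 8 9 true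
  false false true) (.g 2 0 8 9 true false false true))) (.g 0 2 5 6 false true true false)) (.g 2
  0 4 5 true false false true)) (.g 0 2 5 11 false true true false)) (.g 0 2 5 10 false true true
  false)) (.g 2 0 5 7 true true false true)))

def e19 : Cert :=
  (.b 0 (.b 10 (.g 0 2 7 10 false true true false) (.b 4 (.g 2 0 4 7 true false false true) (.b 3
  (.g 2 0 3 7 false false false true) (.b 8 (.b 11 .m (.g 2 0 8 11 false false false true) (.g 2 0
  8 11 false false false true)) (.b 1 (.g 0 1 2 8 false false false true) (.b 11 (.b 9 .m (.g 0 2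
  9 11 false true true false) (.g 0 2 9 11 false true true false)) .m (.b 5 (.b 6 (.g 2 0 6 11
  false false false true) .m (.g 2 0 6 11 false false false true)) (.g 0 2 5 11 false true true
  false) (.g 0 2 5 11 false true true false))) (.g 0 1 2 8 false false false true)) (.b 5 (.b 6 .m
  (.g 0 2 6 8 false false true false) (.g 0 2 6 8 false false true false)) (.g 0 2 5 8 false false
  true false) (.g 0 2 5 8 false false true false))) (.g 2 0 3 7 false false false true)) (.g 2 0 4
  7 true false false true)) (.g 0 2 7 10 false true true false)) (.b 8 (.g 0 2 7 8 true false true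
  false) (.b 5 (.g 2 0 5 7 true true false true) (.b 9 (.g 0 2 5 9 true false true false) (.b 11
  (.g 0 2 7 11 true true true false) .m (.g 0 2 7 11 true true true false)) (.g 0 2 5 9 true false
  true false)) (.g 2 0 5 7 true true false true)) (.g 0 2 7 8 true false true false)) (.b 8 (.g 0
  2 7 8 true false true false) (.b 5 (.g 2 0 5 7 true true false true) (.b 10 (.g 0 2 5 10 false
  true true false) (.b 11 (.g 0 2 5 11 false true true false) .m (.g 0 2 5 11 false true true
  false)) (.g 0 2 5 10 false true true false)) (.g 2 0 5 7 true true false true)) (.g 0 2 7 8 true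
  false true false)))

def d4 : Cert :=
  (.b 5 (.b 8 (.b 9 .m (.b 7 .m (.g 7 5 8 9 true false false true) (.g 7 5 8 9 true false false
  true)) (.b 7 .m (.g 7 5 8 9 true false false true) (.g 7 5 8 9 true false false true))) (.b 9
  (.b 0 .m (.g 0 5 8 9 true false true false) (.g 0 5 8 9 true false true false)) .m (.b 0 .m (.g
  0 5 8 9 true false true false) (.g 0 5 8 9 true false true false))) (.b 9 (.b 0 (.b 3 (.g 0 3 5
  8 false false false true) (.b 6 (.b 1 (.g 0 1 6 8 false false false true) .m (.g 0 1 6 8 false
  false false true)) .m (.b 1 (.g 0 1 6 8 false false false true) .m (.g 0 1 6 8 false false false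
  true))) (.g 0 3 5 8 false false false true)) (.g 0 5 8 9 true false true false) (.g 0 5 8 9 true
  false true false)) (.b 6 (.b 1 (.g 5 1 6 8 false false false true) (.b 7 (.b 0 (.b 3 (.g 0 1 3 8
  false true false true) .m (.g 0 1 3 8 false true false true)) .m (.b 3 (.g 0 1 3 8 false true
  false true) .m (.g 0 1 3 8 false true false true))) (.g 1 7 8 9 true true false true) (.g 1 7 8
  9 true true false true)) (.g 5 1 6 8 false false false true)) (.g 6 5 8 9 true false false true)
  (.g 6 5 8 9 true false false true)) (.b 6 (.b 0 (.b 1 (.g 0 1 5 9 false false false true) (.b 3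
  (.g 0 1 3 8 false true false true) .m (.g 0 1 3 8 false true false true)) (.g 0 1 5 9 false
  false false true)) (.g 0 5 8 9 true false true false) (.g 0 5 8 9 true false true false)) (.g 6
  5 8 9 true false false true) (.g 6 5 8 9 true false false true)))) (.b 8 (.b 9 .m (.b 0 (.g 5 0
  8 9 true false false true) .m (.g 5 0 8 9 true false false true)) (.b 0 (.g 5 0 8 9 true false
  false true) .m (.g 5 0 8 9 true false false true))) (.b 9 (.b 7 (.g 5 7 8 9 true false true
  false) .m (.g 5 7 8 9 true false true false)) .m (.b 7 (.g 5 7 8 9 true false true false) .m (.g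
  5 7 8 9 true false true false))) (.b 9 (.b 6 (.g 5 6 8 9 true false true false) (.b 1 (.b 7 (.g
  7 1 8 9 false false true false) (.b 0 .m (.b 3 .m (.g 1 0 3 8 false true true false) (.g 1 0 3 8
  false true true false)) (.b 3 .m (.g 1 0 3 8 false true true false) (.g 1 0 3 8 false true true
  false))) (.g 7 1 8 9 false false true false)) (.g 1 5 6 8 true true true false) (.g 1 5 6 8 true
  true true false)) (.g 5 6 8 9 true false true false)) (.b 0 (.g 5 0 8 9 true false false true)
  (.b 3 (.b 6 .m (.b 1 .m (.g 1 0 6 8 true true true false) (.g 1 0 6 8 true true true false)) (.b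
  1 .m (.g 1 0 6 8 true true true false) (.g 1 0 6 8 true true true false))) (.g 3 0 5 8 true true
  true false) (.g 3 0 5 8 true true true false)) (.g 5 0 8 9 true false false true)) (.b 6 (.g 5 6
  8 9 true false true false) (.b 0 (.g 5 0 8 9 true false false true) (.b 1 (.b 3 .m (.g 1 0 3 8
  false true true false) (.g 1 0 3 8 false true true false)) (.g 1 0 5 9 true true true false) (.g
  1 0 5 9 true true true false)) (.g 5 0 8 9 true false false true)) (.g 5 6 8 9 true false true
  false)))) (.b 8 (.b 9 .m (.b 7 .m (.g 7 5 8 9 true false false true) (.g 7 5 8 9 true false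
  false true)) (.b 7 .m (.g 7 5 8 9 true false false true) (.g 7 5 8 9 true false false true)))
  (.b 9 (.b 7 (.g 5 7 8 9 true false true false) .m (.g 5 7 8 9 true false true false)) .m (.b 7
  (.g 5 7 8 9 true false true false) .m (.g 5 7 8 9 true false true false))) (.b 9 (.b 6 (.g 5 6 8
  9 true false true false) (.b 0 (.b 1 (.b 3 (.g 0 3 5 8 false false false true) .m (.g 0 3 5 8
  false false false true)) (.g 1 0 5 8 true false true false) (.g 1 0 5 8 true false true false))
  (.g 0 5 6 8 true false true true) (.g 0 5 6 8 true false true true)) (.g 5 6 8 9 true false true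
  false)) (.b 6 (.b 0 (.g 5 0 6 8 true false false false) (.b 1 (.g 0 1 5 8 true false false true)
  (.b 3 .m (.g 3 0 5 8 true true true false) (.g 3 0 5 8 true true true false)) (.g 0 1 5 8 true
  false false true)) (.g 5 0 6 8 true false false false)) (.g 6 5 8 9 true false false true) (.g 6
  5 8 9 true false false true)) (.b 6 (.g 5 6 8 9 true false true false) (.g 6 5 8 9 true false
  false true) (.g 5 6 8 9 true false true false)))))

def e20 : Cert :=
  (.b 0 (.b 5 (.b 11 (.b 6 (.b 3 (.g 2 0 3 7 false false false true) (.b 8 (.b 9 (.b 4 (.b 1 (.g 0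
  1 4 7 false false false true) .m (.g 0 1 4 7 false false false true)) .m (.b 1 (.g 0 1 4 7 false
  false false true) .m (.g 0 1 4 7 false false false true))) (.g 7 0 8 9 true false false true)
  (.g 7 0 8 9 true false false true)) .m (.b 1 (.g 0 1 2 8 false false false true) .m (.g 0 1 2 8
  false false false true))) (.g 2 0 3 7 false false false true)) (.g 0 2 6 7 false false true
  false) (.g 0 2 6 7 false false true false)) (.g 2 0 7 11 false false false true) (.g 2 0 7 11
  false false false true)) (.g 0 2 5 7 false false true false) (.g 0 2 5 7 false false true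
  false)) (.b 8 (.g 0 2 7 8 true false true false) (.b 10 (.b 9 (.g 0 2 7 9 true false true false)
  (.b 4 (.b 1 (.g 0 1 2 7 true false false true) (.b 6 .m (.b 5 (.g 0 1 5 6 true true false true)
  .m (.g 0 1 5 6 true true false true)) (.b 5 (.g 0 1 5 6 true true false true) (.b 11 (.b 3 (.g 0
  3 6 7 true false false true) (.s 6 7 false [29, 31, 0, 31, 0, 31, 28, 40, 73, 37, 0, 0] d4) (.g
  0 3 6 7 true false false true)) (.g 0 1 6 11 true true false true) (.g 0 1 6 11 true true false
  true)) (.g 0 1 5 6 true true false true))) (.g 0 1 2 7 true false false true)) (.g 0 2 4 7 true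
  false true false) (.g 0 2 4 7 true false true false)) (.g 0 2 7 9 true false true false)) (.g 2
  0 7 10 false true false true) (.g 2 0 7 10 false true false true)) (.g 0 2 7 8 true false true
  false)) (.b 8 (.g 0 2 7 8 true false true false) (.b 5 (.b 10 (.b 9 (.g 0 2 7 9 true false true
  false) (.b 6 .m (.g 2 0 5 6 false true false true) (.g 2 0 5 6 false true false true)) (.g 0 2 7
  9 true false true false)) (.g 2 0 5 10 false true false true) (.g 2 0 5 10 false true false
  true)) (.g 0 2 5 7 false false true false) (.g 0 2 5 7 false false true false)) (.g 0 2 7 8 true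
  false true false)))

def e21 : Cert :=
  (.b 0 (.b 8 (.b 10 (.g 0 2 7 10 false true true false) (.b 9 (.b 4 (.g 2 0 4 7 true false false
  true) (.b 1 (.b 6 (.b 5 .m (.g 1 0 5 6 false false true false) (.g 1 0 5 6 false false true
  false)) .m (.b 5 (.b 11 (.g 1 0 6 11 false false true false) (.b 3 (.s 6 7 true [0, 0, 30, 0,
  29, 0, 91, 32, 0, 0, 40, 78] d4) (.g 3 0 6 7 true false true false) (.g 3 0 6 7 true false true
  false)) (.g 1 0 6 11 false false true false)) (.g 1 0 5 6 false false true false) (.g 1 0 5 6
  false false true false))) (.g 1 0 2 7 true false true false) (.g 1 0 2 7 true false true false))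
  (.g 2 0 4 7 true false false true)) (.g 2 0 7 9 true false false true) (.g 2 0 7 9 true false
  false true)) (.g 0 2 7 10 false true true false)) (.g 2 0 7 8 true false false true) (.g 2 0 7 8
  true false false true)) (.b 5 (.g 2 0 5 7 true true false true) (.b 11 (.g 0 2 7 11 true true
  true false) (.b 6 (.g 2 0 6 7 true true false true) (.b 3 (.b 8 .m (.b 9 (.g 0 7 8 9 true false
  true false) (.b 4 .m (.b 1 .m (.g 1 0 4 7 true true true false) (.g 1 0 4 7 true true true
  false)) (.b 1 .m (.g 1 0 4 7 true true true false) (.g 1 0 4 7 true true true false))) (.g 0 7 8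
  9 true false true false)) (.b 1 .m (.g 1 0 2 8 true true true false) (.g 1 0 2 8 true true true
  false))) (.g 0 2 3 7 true true true false) (.g 0 2 3 7 true true true false)) (.g 2 0 6 7 true
  true false true)) (.g 0 2 7 11 true true true false)) (.g 2 0 5 7 true true false true)) (.b 8
  (.b 5 (.g 2 0 5 7 true true false true) (.b 10 (.g 0 2 5 10 false true true false) (.b 9 (.b 6
  (.g 0 2 5 6 false true true false) .m (.g 0 2 5 6 false true true false)) (.g 2 0 7 9 true false
  false true) (.g 2 0 7 9 true false false true)) (.g 0 2 5 10 false true true false)) (.g 2 0 5 7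
  true true false true)) (.g 2 0 7 8 true false false true) (.g 2 0 7 8 true false false true)))

def e22 : Cert :=
  (.b 0 (.b 8 (.b 5 (.b 10 (.g 0 2 7 10 false true true false) (.b 9 (.b 11 (.b 4 (.g 2 0 4 7 true
  false false true) (.b 1 (.b 6 (.b 3 (.g 2 0 3 7 false false false true) .m (.g 2 0 3 7 false
  false false true)) (.g 0 1 2 6 false false false true) (.g 0 1 2 6 false false false true)) (.g
  1 0 2 7 true false true false) (.g 1 0 2 7 true false true false)) (.g 2 0 4 7 true false false
  true)) (.g 2 0 7 11 false false false true) (.g 2 0 7 11 false false false true)) (.g 2 0 5 9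
  true false false true) (.g 2 0 5 9 true false false true)) (.g 0 2 7 10 false true true false))
  (.g 0 2 5 7 false false true false) (.g 0 2 5 7 false false true false)) (.g 2 0 7 8 true false
  false true) (.g 2 0 7 8 true false false true)) (.b 8 (.g 0 2 7 8 true false true false) (.b 5
  (.g 2 0 5 7 true true false true) (.b 10 (.b 9 (.g 0 2 5 9 true false true false) (.b 11 (.g 0 2
  7 11 true true true false) (.b 4 (.b 1 (.g 0 1 2 7 true false false true) (.b 6 (.g 1 0 2 6 true
  true true false) (.b 3 .m (.g 0 2 3 7 true true true false) (.g 0 2 3 7 true true true false))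
  (.g 1 0 2 6 true true true false)) (.g 0 1 2 7 true false false true)) (.g 0 2 4 7 true false
  true false) (.g 0 2 4 7 true false true false)) (.g 0 2 7 11 true true true false)) (.g 0 2 5 9
  true false true false)) (.g 2 0 7 10 false true false true) (.g 2 0 7 10 false true false true))
  (.g 2 0 5 7 true true false true)) (.g 0 2 7 8 true false true false)) (.b 8 (.g 0 2 7 8 true
  false true false) (.g 2 0 7 8 true false false true) (.g 0 2 7 8 true false true false)))

def mainCert : Cert :=
  (.b 7 (.b 2 e3 e8 e9) (.b 2 e14 e18 e19) (.b 2 e20 e21 e22))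

theorem mainCert_ok : check1 mainCert (fun _ => 0) = true := by decide +kernel

theorem stage1 (u : ℕ → ℝ) (hb : Box (fun i => (w0 i : ℝ)) u)
    (hg : Geo (fun i => (w0 i : ℝ)) u) (k : ℕ) (hk1 : 1 ≤ k) (hk5 : k ≤ 5) (hR : R u = k * 50)
    (hB : B u = k * 50) : k = 3 ∧ (NoCut u ∨ NoCut (fun i => (w0 i : ℝ) - u i)) :=
  check1_sound u hb hg k hk1 hk5 hR hB mainCert _ mainCert_ok (fun i => by simp)

end Pool.Agent.H457Z.Fair
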