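import Mathlib

set_option autoImplicit false

namespace Pool.Agent.H457Z.Fair

open Finset

def px (i : ℕ) : ℤ :=
  ([-156000, 132000, -46000, 107000, 20000, -5000, 4000, 39000, 14000, -53000, 33000, -16000] :
    List ℤ).getD i 0

def py (i : ℕ) : ℤ :=
  ([64000, 93000, -72000, -6000, -56000, 0, -6000, -9000, 7000, 34000, -65000, -22000] :
    List ℤ).getD i 0

def w0 (i : ℕ) : ℕ := ([29, 31, 30, 31, 29, 31, 119, 72, 73, 37, 40, 78] : List ℕ).getD i 0

def rob (i j k : ℕ) : Bool :=
  decide (2 * (|px j - px i| + |py k - py i| + |py j - py i| + |px k - px i|) + 8 <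
    (px j - px i) * (py k - py i) - (py j - py i) * (px k - px i))

def sg (t : Bool) (i j k : ℕ) : Bool := if t then rob i j k else rob j i k

def Wit (w u : ℕ → ℝ) (t : Bool) (i : ℕ) : Prop := if t then 0 < u i else u i < w i

def Geo (w u : ℕ → ℝ) : Prop :=
  ∀ (i j k l : ℕ) (a b c d : Bool), sg a j k l = true → sg (!b) i k l = true →
    sg c i j l = true → sg (!d) i j k = true →
    Wit w u a i → Wit w u b j → Wit w u c k → Wit w u d l → False

def Box (w u : ℕ → ℝ) : Prop := ∀ i, 0 ≤ u i ∧ u i ≤ w i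

def R (u : ℕ → ℝ) : ℝ := u 0 + u 1 + u 2 + u 3 + u 4 + u 5 + u 6
def B (u : ℕ → ℝ) : ℝ := u 7 + u 8 + u 9 + u 10 + u 11

def RN (u : ℕ → ℕ) : ℕ := u 0 + u 1 + u 2 + u 3 + u 4 + u 5 + u 6
def BN (u : ℕ → ℕ) : ℕ := u 7 + u 8 + u 9 + u 10 + u 11

inductive Cert : Type
  | g : ℕ → ℕ → ℕ → ℕ → Bool → Bool → Bool → Bool → Cert
  | m : Cert
  | s : ℕ → ℕ → Bool → List ℕ → Cert → Cert
  | b : ℕ → Cert → Cert → Cert → Cert

def upd (st : ℕ → ℕ) (i x : ℕ) : ℕ → ℕ := fun j => if j = i then x else st j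

def Sem (w u : ℕ → ℝ) (st : ℕ → ℕ) : Prop :=
  ∀ i, (st i = 1 → u i = 0) ∧ (st i = 2 → u i = w i) ∧ (st i = 3 → 0 < u i ∧ u i < w i)

def wit (w st : ℕ → ℕ) (t : Bool) (i : ℕ) : Bool :=
  decide (0 < w i) && (decide (st i = 3) || (if t then decide (st i = 2) else decide (st i = 1)))

def lo (w st : ℕ → ℕ) : ℕ → ℕ := fun i => if st i = 2 then w i else 0
def hi (w st : ℕ → ℕ) : ℕ → ℕ := fun i => if st i = 1 then 0 else w i

def infeas (w st : ℕ → ℕ) (k : ℕ) : Bool :=
  decide (k * 50 < RN (lo w st)) || decide (RN (hi w st) < k * 50) ||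
    decide (k * 50 < BN (lo w st)) || decide (BN (hi w st) < k * 50)

def geoOK (w st : ℕ → ℕ) (i j k l : ℕ) (a b c d : Bool) : Bool :=
  sg a j k l && sg (!b) i k l && sg c i j l && sg (!d) i j k &&
    wit w st a i && wit w st b j && wit w st c k && wit w st d l

def check2 (w : ℕ → ℕ) : Cert → (ℕ → ℕ) → Bool
  | .g i j k l a b c d, st => geoOK w st i j k l a b c d
  | .m, st => infeas w st 1 && infeas w st 2
  | .s _ _ _ _ _, _ => false
  | .b i c1 c2 c3, st => check2 w c1 (upd st i 1) && check2 w c2 (upd st i 2) &&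
      check2 w c3 (upd st i 3)

def tg (L : List ℕ) : ℕ → ℕ := fun i => L.getD i 0

def agree (st : ℕ → ℕ) (a b : ℕ) (L : List ℕ) : Bool :=
  (List.range 12).all fun i => decide (tg L i ≤ w0 i) && (decide (i = a) || decide (i = b) ||
    (decide (st i = 1) && decide (tg L i = 0)) || (decide (st i = 2) && decide (tg L i = w0 i)))

def check1 : Cert → (ℕ → ℕ) → Bool
  | .g i j k l a b c d, st => geoOK w0 st i j k l a b c d
  | .m, st => infeas w0 st 1 && infeas w0 st 2 && infeas w0 st 3 && infeas w0 st 4 &&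
      infeas w0 st 5
  | .s a b fl L c, st => infeas w0 st 1 && infeas w0 st 2 && infeas w0 st 4 && infeas w0 st 5 &&
      decide (a < 7) && decide (7 ≤ b) && decide (b < 12) && decide (L.length = 12) &&
      decide (RN (tg L) = 150) && decide (BN (tg L) = 150) && agree st a b L &&
      check2 (if fl then (fun i => w0 i - tg L i) else tg L) c (fun _ => 0)
  | .b i c1 c2 c3, st => check1 c1 (upd st i 1) && check1 c2 (upd st i 2) &&
      check1 c3 (upd st i 3)

def NoCut (w : ℕ → ℝ) : Prop :=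
  ∀ u : ℕ → ℝ, Box w u → Geo w u → ∀ k : ℕ, (k = 1 ∨ k = 2) → R u = k * 50 → B u = k * 50 → False

lemma wit_sound {w st : ℕ → ℕ} {u : ℕ → ℝ} (h : Sem (fun i => (w i : ℝ)) u st) {t : Bool} {i : ℕ}
    (hw : wit w st t i = true) : Wit (fun i => (w i : ℝ)) u t i := by
  obtain ⟨h1, h2, h3⟩ := h i
  unfold wit at hw
  unfold Wit
  cases t
  · simp only [Bool.false_eq_true, if_false, Bool.and_eq_true, decide_eq_true_eq,
      Bool.or_eq_true] at hw ⊢
    obtain ⟨hp, h' | h'⟩ := hw
    · exact (h3 h').2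
    · rw [h1 h']; show (0 : ℝ) < (w i : ℝ); exact_mod_cast hp
  · simp only [if_true, Bool.and_eq_true, decide_eq_true_eq, Bool.or_eq_true] at hw ⊢
    obtain ⟨hp, h' | h'⟩ := hw
    · exact (h3 h').1
    · rw [h2 h']; show (0 : ℝ) < (w i : ℝ); exact_mod_cast hp

lemma geoOK_sound {w st : ℕ → ℕ} {u : ℕ → ℝ} (h : Sem (fun i => (w i : ℝ)) u st)
    (hg : Geo (fun i => (w i : ℝ)) u) {i j k l : ℕ} {a b c d : Bool}
    (hw : geoOK w st i j k l a b c d = true) : False := by
  unfold geoOK at hw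
  simp only [Bool.and_eq_true] at hw
  obtain ⟨⟨⟨⟨⟨⟨⟨h1, h2⟩, h3⟩, h4⟩, h5⟩, h6⟩, h7⟩, h8⟩ := hw
  exact hg i j k l a b c d h1 h2 h3 h4 (wit_sound h h5) (wit_sound h h6) (wit_sound h h7)
    (wit_sound h h8)

lemma lo_le {w st : ℕ → ℕ} {u : ℕ → ℝ} (h : Sem (fun i => (w i : ℝ)) u st)
    (hb : Box (fun i => (w i : ℝ)) u) (i : ℕ) : (lo w st i : ℝ) ≤ u i := by
  unfold lo
  split_ifs with h2
  · rw [(h i).2.1 h2]
  · simpa using (hb i).1

lemma le_hi {w st : ℕ → ℕ} {u : ℕ → ℝ} (h : Sem (fun i => (w i : ℝ)) u st)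
    (hb : Box (fun i => (w i : ℝ)) u) (i : ℕ) : u i ≤ (hi w st i : ℝ) := by
  unfold hi
  split_ifs with h2
  · rw [(h i).1 h2]; simp
  · exact (hb i).2

lemma infeas_sound {w st : ℕ → ℕ} {u : ℕ → ℝ} (h : Sem (fun i => (w i : ℝ)) u st)
    (hb : Box (fun i => (w i : ℝ)) u) {k : ℕ} (hk : infeas w st k = true)
    (hR : R u = k * 50) (hB : B u = k * 50) : False := by
  unfold infeas at hk
  simp only [Bool.or_eq_true, decide_eq_true_eq] at hk
  have l := lo_le h hb
  have g := le_hi h hb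
  unfold R at hR
  unfold B at hB
  rcases hk with ((hk | hk) | hk) | hk
  · have : ((k * 50 : ℕ) : ℝ) < (RN (lo w st) : ℕ) := by exact_mod_cast hk
    unfold RN at this
    push_cast at this
    linarith [l 0, l 1, l 2, l 3, l 4, l 5, l 6]
  · have : ((RN (hi w st) : ℕ) : ℝ) < (k * 50 : ℕ) := by exact_mod_cast hk
    unfold RN at this
    push_cast at this
    linarith [g 0, g 1, g 2, g 3, g 4, g 5, g 6]
  · have : ((k * 50 : ℕ) : ℝ) < (BN (lo w st) : ℕ) := by exact_mod_cast hk
    unfold BN at this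
    push_cast at this
    linarith [l 7, l 8, l 9, l 10, l 11]
  · have : ((BN (hi w st) : ℕ) : ℝ) < (k * 50 : ℕ) := by exact_mod_cast hk
    unfold BN at this
    push_cast at this
    linarith [g 7, g 8, g 9, g 10, g 11]

lemma sem_upd {w u : ℕ → ℝ} {st : ℕ → ℕ} (h : Sem w u st) (hb : Box w u) (i : ℕ) :
    Sem w u (upd st i 1) ∨ Sem w u (upd st i 2) ∨ Sem w u (upd st i 3) := by
  have key : ∀ x : ℕ, ((x = 1 → u i = 0) ∧ (x = 2 → u i = w i) ∧
      (x = 3 → 0 < u i ∧ u i < w i)) → Sem w u (upd st i x) := by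
    intro x hx j
    unfold upd
    split_ifs with hj
    · subst hj; exact hx
    · exact h j
  rcases (hb i).1.eq_or_lt with h0 | h0
  · exact Or.inl (key 1 ⟨fun _ => h0.symm, by omega, by omega⟩)
  · rcases (hb i).2.eq_or_lt with h1 | h1
    · exact Or.inr (Or.inl (key 2 ⟨by omega, fun _ => h1, by omega⟩))
    · exact Or.inr (Or.inr (key 3 ⟨by omega, by omega, fun _ => ⟨h0, h1⟩⟩))

lemma check2_sound (w : ℕ → ℕ) (u : ℕ → ℝ) (hb : Box (fun i => (w i : ℝ)) u)
    (hg : Geo (fun i => (w i : ℝ)) u) (k : ℕ) (hk : k = 1 ∨ k = 2) (hR : R u = k * 50)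
    (hB : B u = k * 50) : ∀ (c : Cert) (st : ℕ → ℕ), check2 w c st = true →
      Sem (fun i => (w i : ℝ)) u st → False := by
  intro c
  induction c with
  | g i j k l a b c d => intro st hc hs; exact geoOK_sound hs hg hc
  | m =>
    intro st hc hs
    simp only [check2, Bool.and_eq_true] at hc
    rcases hk with rfl | rfl
    · exact infeas_sound hs hb hc.1 hR hB
    · exact infeas_sound hs hb hc.2 hR hB
  | s a b fl L c _ => intro st hc; simp [check2] at hc
  | b i c1 c2 c3 ih1 ih2 ih3 =>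
    intro st hc hs
    simp only [check2, Bool.and_eq_true] at hc
    rcases sem_upd hs hb i with h | h | h
    · exact ih1 _ hc.1.1 h
    · exact ih2 _ hc.1.2 h
    · exact ih3 _ hc.2 h

lemma noCut_of_check2 (w : ℕ → ℕ) (c : Cert) (hc : check2 w c (fun _ => 0) = true) :
    NoCut (fun i => (w i : ℝ)) := by
  intro u hb hg k hk hR hB
  exact check2_sound w u hb hg k hk hR hB c _ hc (fun i => by simp)

lemma w0_zero (i : ℕ) (hi : 12 ≤ i) : w0 i = 0 := by
  unfold w0
  rw [List.getD_eq_default]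
  simpa using hi

lemma R_single (d : ℕ → ℝ) (a : ℕ) (ha : a < 7) (e : ∀ i < 7, i ≠ a → d i = 0) (h : R d = 0) :
    d a = 0 := by
  have e0 := e 0 (by omega)
  have e1 := e 1 (by omega)
  have e2 := e 2 (by omega)
  have e3 := e 3 (by omega)
  have e4 := e 4 (by omega)
  have e5 := e 5 (by omega)
  have e6 := e 6 (by omega)
  unfold R at h
  interval_cases a <;> simp at e0 e1 e2 e3 e4 e5 e6 <;> linarith

lemma B_single (d : ℕ → ℝ) (a : ℕ) (ha : 7 ≤ a) (ha' : a < 12)
    (e : ∀ i, 7 ≤ i → i < 12 → i ≠ a → d i = 0) (h : B d = 0) : d a = 0 := by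
  have e0 := e 7 (by omega) (by omega)
  have e1 := e 8 (by omega) (by omega)
  have e2 := e 9 (by omega) (by omega)
  have e3 := e 10 (by omega) (by omega)
  have e4 := e 11 (by omega) (by omega)
  unfold B at h
  interval_cases a <;> simp at e0 e1 e2 e3 e4 <;> linarith

lemma check1_sound (u : ℕ → ℝ) (hb : Box (fun i => (w0 i : ℝ)) u)
    (hg : Geo (fun i => (w0 i : ℝ)) u) (k : ℕ) (hk1 : 1 ≤ k) (hk5 : k ≤ 5) (hR : R u = k * 50)
    (hB : B u = k * 50) : ∀ (c : Cert) (st : ℕ → ℕ), check1 c st = true →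
      Sem (fun i => (w0 i : ℝ)) u st →
      k = 3 ∧ (NoCut u ∨ NoCut (fun i => (w0 i : ℝ) - u i)) := by
  intro c
  induction c with
  | g i j k l a b c d => intro st hc hs; exact (geoOK_sound hs hg hc).elim
  | m =>
    intro st hc hs
    simp only [check1, Bool.and_eq_true] at hc
    obtain ⟨⟨⟨⟨h1, h2⟩, h3⟩, h4⟩, h5⟩ := hc
    exfalso
    interval_cases k
    · exact infeas_sound hs hb h1 hR hB
    · exact infeas_sound hs hb h2 hR hB
    · exact infeas_sound hs hb h3 hR hB
    · exact infeas_sound hs hb h4 hR hB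
    · exact infeas_sound hs hb h5 hR hB
  | s a b fl L c _ =>
    intro st hc hs
    simp only [check1, Bool.and_eq_true, decide_eq_true_eq] at hc
    obtain ⟨⟨⟨⟨⟨⟨⟨⟨⟨⟨⟨h1, h2⟩, h4⟩, h5⟩, ha⟩, hb7⟩, hb12⟩, hL⟩, hRl⟩, hBl⟩, hall⟩, hc⟩ := hc
    have hk : k = 3 := by
      interval_cases k
      · exact (infeas_sound hs hb h1 hR hB).elim
      · exact (infeas_sound hs hb h2 hR hB).elim
      · rfl
      · exact (infeas_sound hs hb h4 hR hB).elim
      · exact (infeas_sound hs hb h5 hR hB).elim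
    refine ⟨hk, ?_⟩
    subst hk
    unfold agree at hall
    simp only [List.all_eq_true, List.mem_range, Bool.and_eq_true, Bool.or_eq_true,
      decide_eq_true_eq] at hall
    have hoth : ∀ i < 12, i ≠ a → i ≠ b → u i - (tg L i : ℝ) = 0 := by
      intro i hi hia hib
      rcases (hall i hi).2 with ((h | h) | h) | h
      · exact absurd h hia
      · exact absurd h hib
      · rw [(hs i).1 h.1, h.2]; simp
      · rw [(hs i).2.1 h.1, h.2]; simp
    have hRl' : ((RN (tg L) : ℕ) : ℝ) = 150 := by exact_mod_cast hRl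
    have hBl' : ((BN (tg L) : ℕ) : ℝ) = 150 := by exact_mod_cast hBl
    have hua : u a - (tg L a : ℝ) = 0 := by
      refine R_single (fun i => u i - (tg L i : ℝ)) a ha
        (fun i hi hia => hoth i (by omega) hia (by omega)) ?_
      unfold RN at hRl'
      unfold R at hR ⊢
      push_cast at hR hRl'
      linarith
    have hub : u b - (tg L b : ℝ) = 0 := by
      refine B_single (fun i => u i - (tg L i : ℝ)) b hb7 hb12
        (fun i hi hi' hib => hoth i hi' (by omega) hib) ?_
      unfold BN at hBl'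
      unfold B at hB ⊢
      push_cast at hB hBl'
      linarith
    have hbig : ∀ i, 12 ≤ i → tg L i = 0 := by
      intro i hi
      unfold tg
      rw [List.getD_eq_default]
      omega
    have hu : ∀ i, u i = (tg L i : ℝ) := by
      intro i
      by_cases hi : i < 12
      · by_cases hia : i = a
        · subst hia; linarith
        · by_cases hib : i = b
          · subst hib; linarith
          · linarith [hoth i hi hia hib]
      · have h1 := (hb i).1
        have h2 := (hb i).2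
        simp only [w0_zero i (by omega), Nat.cast_zero] at h2
        rw [hbig i (by omega)]
        simp only [Nat.cast_zero]
        linarith
    have hle : ∀ i, tg L i ≤ w0 i := by
      intro i
      by_cases hi : i < 12
      · exact (hall i hi).1
      · rw [hbig i (by omega)]; omega
    have hn := noCut_of_check2 _ c hc
    cases fl
    · left
      simp only [Bool.false_eq_true, if_false] at hn
      have : u = fun i => (tg L i : ℝ) := funext hu
      rw [this]; exact hn
    · right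
      simp only [if_true] at hn
      have : (fun i => (w0 i : ℝ) - u i) = fun i => ((w0 i - tg L i : ℕ) : ℝ) := by
        funext i
        rw [Nat.cast_sub (hle i), hu i]
      rw [this]; exact hn
  | b i c1 c2 c3 ih1 ih2 ih3 =>
    intro st hc hs
    simp only [check1, Bool.and_eq_true] at hc
    rcases sem_upd hs hb i with h | h | h
    · exact ih1 _ hc.1.1 h
    · exact ih2 _ hc.1.2 h
    · exact ih3 _ hc.2 h

end Pool.Agent.H457Z.Fair
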