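import Pool.Agent.H457Z.Fair.Cert

set_option autoImplicit false

open MeasureTheory

namespace Pool.Agent.H457Z.Fair

abbrev E := EuclideanSpace ℝ (Fin 2)

noncomputable def ctr (i : ℕ) : E := !₂[(px i : ℝ), (py i : ℝ)]

def Bl (i : ℕ) : Set E := Metric.ball (ctr i) 1

noncomputable def V : ENNReal := volume (Metric.ball (0 : E) 1)

lemma V_pos : 0 < V := Metric.measure_ball_pos _ _ one_pos
lemma V_lt : V < ⊤ := measure_ball_lt_top
lemma vol_Bl (i : ℕ) : volume (Bl i) = V := by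
  unfold Bl V
  exact Measure.addHaar_ball_center _ _ _

lemma v_pos : 0 < V.toReal := ENNReal.toReal_pos V_pos.ne' V_lt.ne

lemma meas_Bl (i : ℕ) : MeasurableSet (Bl i) := Metric.isOpen_ball.measurableSet

noncomputable def uu (A : Set E) (i : ℕ) : ℝ := (w0 i : ℝ) * (volume (A ∩ Bl i)).toReal / V.toReal

lemma vol_lt (A : Set E) (i : ℕ) : volume (A ∩ Bl i) < ⊤ :=
  lt_of_le_of_lt (measure_mono Set.inter_subset_right) (by rw [vol_Bl]; exact V_lt)

lemma uu_univ (i : ℕ) : uu Set.univ i = w0 i := by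
  unfold uu
  rw [Set.univ_inter, vol_Bl, mul_div_assoc, div_self v_pos.ne', mul_one]

lemma uu_nonneg (A : Set E) (i : ℕ) : 0 ≤ uu A i := by
  unfold uu
  have := v_pos
  positivity

lemma uu_add (A H : Set E) (hH : MeasurableSet H) (i : ℕ) :
    uu (A ∩ H) i + uu (A ∩ Hᶜ) i = uu A i := by
  unfold uu
  rw [← add_div, ← mul_add, ← ENNReal.toReal_add (vol_lt _ _).ne (vol_lt _ _).ne]
  have h := measure_inter_add_diff (μ := (volume : Measure E)) (A ∩ Bl i) hH
  have e1 : A ∩ H ∩ Bl i = A ∩ Bl i ∩ H := by ext; simp; tauto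
  have e2 : A ∩ Hᶜ ∩ Bl i = (A ∩ Bl i) \ H := by ext; simp; tauto
  rw [e1, e2, h]

lemma exists_of_pos (A : Set E) (i : ℕ) (h : 0 < uu A i) : ∃ x, x ∈ A ∧ x ∈ Bl i := by
  by_contra hn
  have : A ∩ Bl i = ∅ := by
    ext x
    simp only [Set.mem_inter_iff, Set.mem_empty_iff_false, iff_false]
    exact fun hx => hn ⟨x, hx⟩
  unfold uu at h
  rw [this] at h
  simp at h

lemma coord (i : ℕ) (x : E) (hx : x ∈ Bl i) :
    |x 0 - (px i : ℝ)| < 1 ∧ |x 1 - (py i : ℝ)| < 1 := by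
  unfold Bl at hx
  rw [Metric.mem_ball] at hx
  have h0 := PiLp.dist_apply_le x (ctr i) 0
  have h1 := PiLp.dist_apply_le x (ctr i) 1
  rw [Real.dist_eq] at h0 h1
  have e0 : ctr i 0 = (px i : ℝ) := by simp [ctr]
  have e1 : ctr i 1 = (py i : ℝ) := by simp [ctr]
  rw [e0] at h0
  rw [e1] at h1
  exact ⟨lt_of_le_of_lt h0 hx, lt_of_le_of_lt h1 hx⟩

def D (x y z : E) : ℝ := (y 0 - x 0) * (z 1 - x 1) - (y 1 - x 1) * (z 0 - x 0)

lemma aux_det (a b c d e1 e2 e3 e4 : ℝ) (h1 : |e1| ≤ 2) (h2 : |e2| ≤ 2) (h3 : |e3| ≤ 2)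
    (h4 : |e4| ≤ 2) (h : 2 * (|a| + |b| + |c| + |d|) + 8 < a * b - c * d) :
    0 < (a + e1) * (b + e2) - (c + e3) * (d + e4) := by
  have k : ∀ p q : ℝ, |q| ≤ 2 → |p * q| ≤ 2 * |p| := by
    intro p q hq
    rw [abs_mul]
    nlinarith [abs_nonneg p]
  have k1 := abs_le.mp (k a e2 h2)
  have k2 := abs_le.mp (k b e1 h1)
  have k3 := abs_le.mp (k c e4 h4)
  have k4 := abs_le.mp (k d e3 h3)
  have k5 := abs_le.mp (k e1 e2 h2)
  have k6 := abs_le.mp (k e3 e4 h4)
  nlinarith

lemma rob_sound {i j k : ℕ} (h : rob i j k = true) {x y z : E} (hx : x ∈ Bl i) (hy : y ∈ Bl j)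
    (hz : z ∈ Bl k) : 0 < D x y z := by
  unfold rob at h
  rw [decide_eq_true_eq] at h
  have h' : 2 * (|(px j : ℝ) - px i| + |(py k : ℝ) - py i| + |(py j : ℝ) - py i| +
      |(px k : ℝ) - px i|) + 8 <
      ((px j : ℝ) - px i) * ((py k : ℝ) - py i) - ((py j : ℝ) - py i) * ((px k : ℝ) - px i) := by
    exact_mod_cast h
  obtain ⟨x0, x1⟩ := coord i x hx
  obtain ⟨y0, y1⟩ := coord j y hy
  obtain ⟨z0, z1⟩ := coord k z hz
  rw [abs_lt] at x0 x1 y0 y1 z0 z1
  have := aux_det _ _ _ _ ((y 0 - px j) - (x 0 - px i)) ((z 1 - py k) - (x 1 - py i))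
    ((y 1 - py j) - (x 1 - py i)) ((z 0 - px k) - (x 0 - px i))
    (abs_le.mpr ⟨by linarith, by linarith⟩) (abs_le.mpr ⟨by linarith, by linarith⟩)
    (abs_le.mpr ⟨by linarith, by linarith⟩) (abs_le.mpr ⟨by linarith, by linarith⟩) h'
  unfold D
  convert this using 1
  ring

lemma sg_sound {t : Bool} {i j k : ℕ} (h : sg t i j k = true) {x y z : E} (hx : x ∈ Bl i)
    (hy : y ∈ Bl j) (hz : z ∈ Bl k) : if t then 0 < D x y z else D x y z < 0 := by
  cases t
  · simp only [sg, Bool.false_eq_true, if_false] at h ⊢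
    have := rob_sound h hy hx hz
    unfold D at this ⊢
    linarith
  · simp only [sg, if_true] at h ⊢
    exact rob_sound h hx hy hz

def Hs (v : E) (c : ℝ) : Set E := {x | inner ℝ v x ≤ c}

lemma Hs_compl (v : E) (c : ℝ) : {x : E | c < inner ℝ v x} = (Hs v c)ᶜ := by
  ext x; simp [Hs]

lemma meas_Hs (v : E) (c : ℝ) : MeasurableSet (Hs v c) := by
  unfold Hs
  exact (isClosed_le (by fun_prop) continuous_const).measurableSet

lemma inner_eq (v x : E) : inner ℝ v x = v 0 * x 0 + v 1 * x 1 := by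
  simp [PiLp.inner_apply, Fin.sum_univ_two, mul_comm]

lemma wit_point (A : Set E) (v : E) (c : ℝ) (t : Bool) (i : ℕ)
    (h : Wit (uu A) (uu (A ∩ Hs v c)) t i) :
    ∃ x : E, x ∈ Bl i ∧ if t then v 0 * x 0 + v 1 * x 1 - c ≤ 0
      else 0 < v 0 * x 0 + v 1 * x 1 - c := by
  cases t
  · simp only [Wit, Bool.false_eq_true, if_false] at h ⊢
    have h2 := uu_add A (Hs v c) (meas_Hs v c) i
    obtain ⟨x, hx, hb⟩ := exists_of_pos (A ∩ (Hs v c)ᶜ) i (by linarith)
    refine ⟨x, hb, ?_⟩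
    have := hx.2
    simp only [Hs, Set.mem_compl_iff, Set.mem_setOf_eq, not_le, inner_eq] at this
    linarith
  · simp only [Wit, if_true] at h ⊢
    obtain ⟨x, hx, hb⟩ := exists_of_pos _ i h
    refine ⟨x, hb, ?_⟩
    have := hx.2
    simp only [Hs, Set.mem_setOf_eq, inner_eq] at this
    linarith

lemma term (t : Bool) (l s : ℝ) (hl : if t then 0 < l else l < 0)
    (hs : if t then s ≤ 0 else 0 < s) : l * s ≤ 0 ∧ (l * s = 0 → 0 < l) := by
  cases t
  · simp only [Bool.false_eq_true, if_false] at hl hs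
    have : l * s < 0 := mul_neg_of_neg_of_pos hl hs
    exact ⟨this.le, fun h => absurd h this.ne⟩
  · simp only [if_true] at hl hs
    exact ⟨mul_nonpos_of_nonneg_of_nonpos hl.le hs, fun _ => hl⟩

lemma flip (t : Bool) (l : ℝ) (hl : if (!t) then 0 < l else l < 0) :
    if t then 0 < -l else -l < 0 := by
  cases t <;> simp_all

lemma geo_uu (A : Set E) (v : E) (c : ℝ) : Geo (uu A) (uu (A ∩ Hs v c)) := by
  intro i j k l a b c' d h1 h2 h3 h4 w1 w2 w3 w4
  obtain ⟨x, hx, sx⟩ := wit_point A v c _ _ w1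
  obtain ⟨y, hy, sy⟩ := wit_point A v c _ _ w2
  obtain ⟨z, hz, sz⟩ := wit_point A v c _ _ w3
  obtain ⟨t, ht, st⟩ := wit_point A v c _ _ w4
  have t1 := term a _ _ (sg_sound h1 hy hz ht) sx
  have t2 := term b _ _ (flip b _ (sg_sound h2 hx hz ht)) sy
  have t3 := term c' _ _ (sg_sound h3 hx hy ht) sz
  have t4 := term d _ _ (flip d _ (sg_sound h4 hx hy hz)) st
  have e1 : D y z t * (v 0 * x 0 + v 1 * x 1 - c) + -D x z t * (v 0 * y 0 + v 1 * y 1 - c) +
      D x y t * (v 0 * z 0 + v 1 * z 1 - c) + -D x y z * (v 0 * t 0 + v 1 * t 1 - c) = 0 := by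
    unfold D; ring
  have e2 : D y z t + -D x z t + D x y t + -D x y z = 0 := by
    unfold D; ring
  have p1 := t1.2 (by linarith [t1.1, t2.1, t3.1, t4.1])
  have p2 := t2.2 (by linarith [t1.1, t2.1, t3.1, t4.1])
  have p3 := t3.2 (by linarith [t1.1, t2.1, t3.1, t4.1])
  have p4 := t4.2 (by linarith [t1.1, t2.1, t3.1, t4.1])
  linarith

lemma box_uu (A : Set E) (v : E) (c : ℝ) : Box (uu A) (uu (A ∩ Hs v c)) := by
  intro i
  have h := uu_add A (Hs v c) (meas_Hs v c) i
  exact ⟨uu_nonneg _ _, by linarith [uu_nonneg (A ∩ (Hs v c)ᶜ) i]⟩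

inductive Iter : Set E → List (Set E) → Prop
  | one (A : Set E) : Iter A [A]
  | cut (A : Set E) (l₁ l₂ : List (Set E)) (v : E) (c : ℝ) :
      Iter (A ∩ Hs v c) l₁ → Iter (A ∩ (Hs v c)ᶜ) l₂ → Iter A (l₁ ++ l₂)

lemma Iter.pos {A : Set E} {L : List (Set E)} (h : Iter A L) : 1 ≤ L.length := by
  induction h with
  | one A => simp
  | cut A l₁ l₂ v c _ _ ih1 ih2 => simp; omega

lemma Iter.total {A : Set E} {L : List (Set E)} (h : Iter A L) (f : Set E → ℝ)
    (hf : ∀ (A : Set E) (v : E) (c : ℝ), f (A ∩ Hs v c) + f (A ∩ (Hs v c)ᶜ) = f A) (m : ℝ)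
    (hm : ∀ P ∈ L, f P = m) : f A = L.length * m := by
  induction h with
  | one A => simpa using hm A (by simp)
  | cut A l₁ l₂ v c _ _ ih1 ih2 =>
    rw [← hf A v c, ih1 (fun P hP => hm P (by simp [hP])), ih2 (fun P hP => hm P (by simp [hP]))]
    simp only [List.length_append, Nat.cast_add]
    ring

lemma Iter.inv {A : Set E} {L : List (Set E)} (h : Iter A L) (hL : 2 ≤ L.length) :
    ∃ (l₁ l₂ : List (Set E)) (v : E) (c : ℝ), L = l₁ ++ l₂ ∧ Iter (A ∩ Hs v c) l₁ ∧
      Iter (A ∩ (Hs v c)ᶜ) l₂ := by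
  cases h with
  | one => simp at hL
  | cut _ l₁ l₂ v c h1 h2 => exact ⟨l₁, l₂, v, c, rfl, h1, h2⟩

lemma R_add (A : Set E) (v : E) (c : ℝ) :
    R (uu (A ∩ Hs v c)) + R (uu (A ∩ (Hs v c)ᶜ)) = R (uu A) := by
  have h := uu_add A (Hs v c) (meas_Hs v c)
  unfold R
  linarith [h 0, h 1, h 2, h 3, h 4, h 5, h 6]

lemma B_add (A : Set E) (v : E) (c : ℝ) :
    B (uu (A ∩ Hs v c)) + B (uu (A ∩ (Hs v c)ᶜ)) = B (uu A) := by
  have h := uu_add A (Hs v c) (meas_Hs v c)
  unfold B
  linarith [h 7, h 8, h 9, h 10, h 11]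

lemma three {A : Set E} {L : List (Set E)} (h : Iter A L) (hL : L.length = 3)
    (hR : ∀ P ∈ L, R (uu P) = 50) (hB : ∀ P ∈ L, B (uu P) = 50) (hn : NoCut (uu A)) : False := by
  obtain ⟨l₁, l₂, v, c, rfl, h1, h2⟩ := h.inv (by omega)
  have p1 := h1.pos
  have p2 := h2.pos
  rw [List.length_append] at hL
  exact hn _ (box_uu A v c) (geo_uu A v c) l₁.length (by omega)
    (h1.total (fun P => R (uu P)) R_add 50 (fun P hP => hR P (by simp [hP])))
    (h1.total (fun P => B (uu P)) B_add 50 (fun P hP => hB P (by simp [hP])))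

theorem six {L : List (Set E)} (h : Iter Set.univ L) (hL : L.length = 6)
    (hR : ∀ P ∈ L, ∀ Q ∈ L, R (uu P) = R (uu Q))
    (hB : ∀ P ∈ L, ∀ Q ∈ L, B (uu P) = B (uu Q)) : False := by
  obtain ⟨P0, hP0⟩ : ∃ P, P ∈ L := List.exists_mem_of_length_pos (by omega)
  have hu : uu Set.univ = fun i => (w0 i : ℝ) := funext uu_univ
  have tR := h.total (fun P => R (uu P)) R_add _ (fun P hP => hR P hP P0 hP0)
  have tB := h.total (fun P => B (uu P)) B_add _ (fun P hP => hB P hP P0 hP0)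
  have eR : R (uu Set.univ) = 300 := by
    rw [hu]; simp only [R, w0]; norm_num
  have eB : B (uu Set.univ) = 300 := by
    rw [hu]; simp only [B, w0]; norm_num
  simp only [hL, eR, eB] at tR tB
  have hR' : ∀ P ∈ L, R (uu P) = 50 := fun P hP => by
    rw [hR P hP P0 hP0]; push_cast at tR; linarith
  have hB' : ∀ P ∈ L, B (uu P) = 50 := fun P hP => by
    rw [hB P hP P0 hP0]; push_cast at tB; linarith
  obtain ⟨l₁, l₂, v, c, rfl, h1, h2⟩ := h.inv (by omega)
  have p1 := h1.pos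
  have p2 := h2.pos
  rw [List.length_append] at hL
  have hb := box_uu Set.univ v c
  have hg := geo_uu Set.univ v c
  rw [hu] at hb hg
  obtain ⟨hk, hn⟩ := stage1 _ hb hg l₁.length p1 (by omega)
    (h1.total (fun P => R (uu P)) R_add 50 (fun P hP => hR' P (by simp [hP])))
    (h1.total (fun P => B (uu P)) B_add 50 (fun P hP => hB' P (by simp [hP])))
  rcases hn with hn | hn
  · exact three h1 hk (fun P hP => hR' P (by simp [hP])) (fun P hP => hB' P (by simp [hP])) hn
  · refine three h2 (by omega) (fun P hP => hR' P (by simp [hP]))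
      (fun P hP => hB' P (by simp [hP])) ?_
    have : uu (Set.univ ∩ (Hs v c)ᶜ) = fun i => (w0 i : ℝ) - uu (Set.univ ∩ Hs v c) i := by
      funext i
      have := uu_add Set.univ (Hs v c) (meas_Hs v c) i
      rw [uu_univ] at this
      linarith
    rw [this]; exact hn

lemma Iter.meas {A : Set E} {L : List (Set E)} (h : Iter A L) (hA : MeasurableSet A) :
    ∀ P ∈ L, MeasurableSet P := by
  induction h with
  | one A => intro P hP; simp at hP; rw [hP]; exact hA
  | cut A l₁ l₂ v c _ _ ih1 ih2 =>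
    intro P hP
    rcases List.mem_append.mp hP with hP | hP
    · exact ih1 (hA.inter (meas_Hs v c)) P hP
    · exact ih2 (hA.inter (meas_Hs v c).compl) P hP

noncomputable def piece (i : ℕ) : Measure E := (w0 i : ENNReal) • volume.restrict (Bl i)

noncomputable def mu (s : Finset ℕ) : Measure E := ∑ i ∈ s, piece i

lemma mu_apply (s : Finset ℕ) (P : Set E) (hP : MeasurableSet P) :
    (mu s P).toReal = V.toReal * ∑ i ∈ s, uu P i := by
  unfold mu
  rw [Measure.finset_sum_apply, ENNReal.toReal_sum, Finset.mul_sum]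
  · refine Finset.sum_congr rfl fun i _ => ?_
    unfold piece uu
    rw [Measure.smul_apply, Measure.restrict_apply hP, smul_eq_mul, ENNReal.toReal_mul]
    have := v_pos
    field_simp
    simp [mul_comm]
  · intro i _
    unfold piece
    rw [Measure.smul_apply, Measure.restrict_apply hP, smul_eq_mul]
    exact ENNReal.mul_ne_top (by simp) (vol_lt _ _).ne

lemma mu_finite (s : Finset ℕ) : IsFiniteMeasure (mu s) := by
  constructor
  unfold mu
  rw [Measure.finset_sum_apply]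
  refine ENNReal.sum_lt_top.mpr fun i _ => ?_
  unfold piece
  rw [Measure.smul_apply, Measure.restrict_apply MeasurableSet.univ, smul_eq_mul]
  exact ENNReal.mul_lt_top (by simp) (vol_lt _ _)

lemma mu_ac (s : Finset ℕ) : mu s ≪ (volume : Measure E) := by
  refine Measure.AbsolutelyContinuous.mk fun P hP h0 => ?_
  unfold mu
  rw [Measure.finset_sum_apply]
  refine Finset.sum_eq_zero fun i _ => ?_
  unfold piece
  rw [Measure.smul_apply, Measure.restrict_apply hP, smul_eq_mul,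
    measure_mono_null Set.inter_subset_left h0, mul_zero]

noncomputable def ms : Fin 2 → Measure E := ![mu {0, 1, 2, 3, 4, 5, 6}, mu {7, 8, 9, 10, 11}]

theorem no_fair {L : List (Set E)} (h : Iter Set.univ L) (hL : L.length = 6)
    (hf : ∀ k, ∀ P ∈ L, ∀ Q ∈ L, ms k P = ms k Q) : False := by
  have hm := h.meas MeasurableSet.univ
  refine six h hL (fun P hP Q hQ => ?_) (fun P hP Q hQ => ?_)
  · have := congrArg ENNReal.toReal (hf 0 P hP Q hQ)
    simp only [ms, Matrix.cons_val_zero] at this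
    rw [mu_apply _ _ (hm P hP), mu_apply _ _ (hm Q hQ)] at this
    have := mul_left_cancel₀ v_pos.ne' this
    simp at this
    unfold R
    linarith
  · have := congrArg ENNReal.toReal (hf 1 P hP Q hQ)
    simp only [ms, Matrix.cons_val_one, Matrix.cons_val_zero] at this
    rw [mu_apply _ _ (hm P hP), mu_apply _ _ (hm Q hQ)] at this
    have := mul_left_cancel₀ v_pos.ne' this
    simp at this
    unfold B
    linarith

end Pool.Agent.H457Z.Fair

namespace Pool.Agent.H457Z.Fair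

lemma ms_finite (k : Fin 2) : IsFiniteMeasure (ms k) := by
  fin_cases k
  · exact mu_finite {0, 1, 2, 3, 4, 5, 6}
  · exact mu_finite {7, 8, 9, 10, 11}

lemma ms_ac (k : Fin 2) : ms k ≪ (volume : Measure E) := by
  fin_cases k
  · exact mu_ac {0, 1, 2, 3, 4, 5, 6}
  · exact mu_ac {7, 8, 9, 10, 11}

end Pool.Agent.H457Z.Fair
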